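import Mathlib
import Pool.Agent.MP_8228af_gt.Surface

set_option autoImplicit false

open MeasureTheory Measure Module Set
open scoped Pointwise ENNReal RealInnerProductSpace

namespace Pool.Agent.Results.MP_8228af_gt.AffineSurfaceArea

open Pool.Agent.MP_8228af_gt

/-- A convex body in `ℝⁿ`: a compact convex set with nonempty interior. -/
def IsConvexBody {n : ℕ} (K : Set (EuclideanSpace ℝ (Fin n))) : Prop :=
  IsCompact K ∧ Convex ℝ K ∧ (interior K).Nonempty

/-- `K` is centrally symmetric: some translate `K - x` is symmetric about the origin. -/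
def IsCentrallySymmetric {n : ℕ} (K : Set (EuclideanSpace ℝ (Fin n))) : Prop :=
  ∃ x : EuclideanSpace ℝ (Fin n), ∀ y, x + y ∈ K ↔ x - y ∈ K

/-- The surface area: the `(n-1)`-dimensional Hausdorff measure (normalised as in Euclidean
geometry) of the boundary. -/
noncomputable def surfaceArea {n : ℕ} (K : Set (EuclideanSpace ℝ (Fin n))) : ℝ≥0∞ :=
  μHE[n - 1] (frontier K)

/-- `C₂` dominates `C₁` in affine surface area. -/
def Dominates {n : ℕ} (C₂ C₁ : Set (EuclideanSpace ℝ (Fin n))) : Prop :=
  ∀ A : EuclideanSpace ℝ (Fin n) ≃ᵃ[ℝ] EuclideanSpace ℝ (Fin n),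
    surfaceArea (A '' C₁) ≤ surfaceArea (A '' C₂)

variable {n : ℕ}

theorem surfaceArea_image (A : E n ≃ᵃ[ℝ] E n) (C : Set (E n)) :
    surfaceArea (A '' C) =
      μHE[n - 1] ((A.linear.toContinuousLinearEquiv : E n ≃L[ℝ] E n) '' frontier C) := by
  unfold surfaceArea
  have h1 : frontier (A '' C) = A '' frontier C := by
    exact ((AffineEquiv.toContinuousAffineEquiv A).toHomeomorph.image_frontier C).symm
  have h2 : A '' frontier C =
      (A 0) +ᵥ ((A.linear.toContinuousLinearEquiv : E n ≃L[ℝ] E n) '' frontier C) := by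
    ext y
    have hA : ∀ x, A x = A.linear x + A 0 := fun x => by
      have := A.map_vadd 0 x
      simpa using this
    constructor
    · rintro ⟨x, hx, rfl⟩
      refine ⟨A.linear x, ⟨x, hx, rfl⟩, ?_⟩
      rw [hA x, add_comm]; rfl
    · rintro ⟨_, ⟨x, hx, rfl⟩, rfl⟩
      refine ⟨x, hx, ?_⟩
      rw [hA x, add_comm]; rfl
  rw [h1, h2, measure_vadd]

/-- comparison of middle sections and facets -/
theorem disc_le (hn : 3 ≤ n) (L : E n ≃L[ℝ] E n) :
    3 * ∑ i : Fin n, μHE[n - 1] (L '' disc i 1) ≤
      n * ∑ e : Fin n → Bool, μHE[n - 1] (L '' facet e 1) := by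
  set D := ENNReal.ofReal |(L : E n →L[ℝ] E n).det| with hD
  set v := volume (orth (fun _ : Fin n => true) 1) with hv
  set x : Fin n → E n := fun i => M L (EuclideanSpace.single i (1 : ℝ)) with hx
  have hhalf : ∀ i : Fin n, volume (half i 1) ≤ ENNReal.ofReal (2 ^ n / 2) * v := by
    intro i
    have h1 := (volume_half_le i 1).trans (volume_ball1_le (n := n))
    have h2 : volume (half i 1) = 2⁻¹ * (2 * volume (half i 1)) := by
      rw [← mul_assoc, ENNReal.inv_mul_cancel (by norm_num) (by norm_num), one_mul]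
    rw [h2]
    calc 2⁻¹ * (2 * volume (half i 1)) ≤ 2⁻¹ * (2 ^ n * v) := by gcongr
      _ = ENNReal.ofReal (2 ^ n / 2) * v := by
        rw [← mul_assoc]
        congr 1
        rw [ENNReal.ofReal_div_of_pos (by norm_num), ENNReal.ofReal_pow (by norm_num), div_eq_mul_inv,
          mul_comm]
        norm_num
  have h1 : ∀ i : Fin n, μHE[n - 1] (L '' disc i 1) ≤
      ENNReal.ofReal (n * 2 ^ n / 2 * ‖x i‖) * (D * v) := by
    intro i
    refine (meas_disc_le L i).trans ?_
    calc _ ≤ ENNReal.ofReal (n * ‖x i‖) * (D * (ENNReal.ofReal (2 ^ n / 2) * v)) := by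
          gcongr
          exact hhalf i
      _ = (ENNReal.ofReal (n * ‖x i‖) * ENNReal.ofReal (2 ^ n / 2)) * (D * v) := by ring
      _ = _ := by
        rw [← ENNReal.ofReal_mul (by positivity)]
        congr 2
        ring
  have h2 : ∀ e : Fin n → Bool, μHE[n - 1] (L '' facet e 1) =
      ENNReal.ofReal (n * ‖ss x e‖) * (D * v) := by
    intro e
    rw [meas_facet (by omega) L e, M_sv]
  calc 3 * ∑ i : Fin n, μHE[n - 1] (L '' disc i 1)
      ≤ 3 * ∑ i : Fin n, ENNReal.ofReal (n * 2 ^ n / 2 * ‖x i‖) * (D * v) := by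
        gcongr with i
        exact h1 i
    _ = ENNReal.ofReal (3 * ∑ i : Fin n, n * 2 ^ n / 2 * ‖x i‖) * (D * v) := by
        rw [← Finset.sum_mul, ← ENNReal.ofReal_sum_of_nonneg (fun i _ => by positivity), ← mul_assoc,
          ENNReal.ofReal_mul (p := 3) (by norm_num)]
        norm_num
    _ ≤ ENNReal.ofReal (n * ∑ e : Fin n → Bool, n * ‖ss x e‖) * (D * v) := by
        gcongr ENNReal.ofReal ?_ * (D * v)
        have := avg_le hn x
        rw [← Finset.mul_sum, ← Finset.mul_sum]
        have hn0 : (0 : ℝ) ≤ n := by positivity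
        nlinarith [mul_le_mul_of_nonneg_left this hn0]
    _ = n * ∑ e : Fin n → Bool, ENNReal.ofReal (n * ‖ss x e‖) * (D * v) := by
        rw [← Finset.sum_mul, ← ENNReal.ofReal_sum_of_nonneg (fun i _ => by positivity),
          ENNReal.ofReal_mul (p := (n : ℝ)) (by positivity), ENNReal.ofReal_natCast, mul_assoc]
    _ = _ := by
        congr 1
        exact Finset.sum_congr rfl fun e _ => (h2 e).symm

theorem sum_facet_ne_top (hn : 0 < n) (L : E n ≃L[ℝ] E n) :
    ∑ e : Fin n → Bool, μHE[n - 1] (L '' facet e 1) ≠ ⊤ := by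
  refine ENNReal.sum_ne_top.2 fun e _ => ?_
  rw [meas_facet hn L e]
  refine ENNReal.mul_ne_top ENNReal.ofReal_ne_top (ENNReal.mul_ne_top ENNReal.ofReal_ne_top ?_)
  refine ((measure_mono ?_).trans_lt (isCompact_ball1 (n := n) 1).measure_lt_top).ne
  exact fun x hx => hx.2

/-- the domination -/
theorem domination (hn : 3 ≤ n) {s w : ℝ} (hw : 0 < w) (hws : 2 * w ≤ s)
    (hs : s ^ (n - 1) = 1 + n / 3 * w ^ (n - 1)) (L : E n ≃L[ℝ] E n) :
    μHE[n - 1] (L '' frontier (trunc n s (s - w))) ≤ μHE[n - 1] (L '' frontier (ball1 n 1)) := by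
  have hn0 : 0 < n := by omega
  refine le_trans ?_ (lower hn0 L)
  have hU := upper hn0 L (s := s) (t := s - w) (by linarith) (by linarith) (by linarith)
  rw [sub_sub_cancel] at hU
  set S := ∑ e : Fin n → Bool, μHE[n - 1] (L '' facet e 1) with hS
  set B := ∑ i : Fin n, μHE[n - 1] (L '' disc i 1) with hB
  have hBS : 3 * B ≤ n * S := disc_le hn L
  have hST : S ≠ ⊤ := sum_facet_ne_top hn0 L
  have hfin : (n : ℝ≥0∞) * (ENNReal.ofReal (w ^ (n - 1)) * S) ≠ ⊤ :=
    ENNReal.mul_ne_top (ENNReal.natCast_ne_top n) (ENNReal.mul_ne_top ENNReal.ofReal_ne_top hST)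
  refine (ENNReal.add_le_add_iff_right hfin).1 (hU.trans ?_)
  have e1 : ENNReal.ofReal (s ^ (n - 1)) * S =
      S + ENNReal.ofReal (n / 3 * w ^ (n - 1)) * S := by
    rw [hs, ENNReal.ofReal_add zero_le_one (by positivity), ENNReal.ofReal_one, add_mul, one_mul]
  have e2 : 2 * (ENNReal.ofReal (w ^ (n - 1)) * B) ≤ ENNReal.ofReal (n * 2 / 3 * w ^ (n - 1)) * S := by
    calc 2 * (ENNReal.ofReal (w ^ (n - 1)) * B)
        = ENNReal.ofReal (2 / 3 * w ^ (n - 1)) * (3 * B) := by
          rw [show (2 / 3 * w ^ (n - 1) : ℝ) = 2 / 3 * w ^ (n - 1) from rfl,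
            ENNReal.ofReal_mul (by norm_num)]
          have h23 : ENNReal.ofReal (2 / 3) * 3 = 2 := by
            have : (3 : ℝ≥0∞) = ENNReal.ofReal 3 := by norm_num
            rw [this, ← ENNReal.ofReal_mul (by norm_num)]
            norm_num
          calc 2 * (ENNReal.ofReal (w ^ (n - 1)) * B)
              = (ENNReal.ofReal (2 / 3) * 3) * (ENNReal.ofReal (w ^ (n - 1)) * B) := by rw [h23]
            _ = _ := by ring
      _ ≤ ENNReal.ofReal (2 / 3 * w ^ (n - 1)) * (n * S) := by gcongr
      _ = ENNReal.ofReal (n * 2 / 3 * w ^ (n - 1)) * S := by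
          rw [← mul_assoc, ← ENNReal.ofReal_natCast, ← ENNReal.ofReal_mul (by positivity)]
          congr 2
          ring
  rw [e1]
  calc S + ENNReal.ofReal (n / 3 * w ^ (n - 1)) * S + 2 * (ENNReal.ofReal (w ^ (n - 1)) * B)
      ≤ S + ENNReal.ofReal (n / 3 * w ^ (n - 1)) * S +
        ENNReal.ofReal (n * 2 / 3 * w ^ (n - 1)) * S := by gcongr
    _ = S + (ENNReal.ofReal (n / 3 * w ^ (n - 1)) + ENNReal.ofReal (n * 2 / 3 * w ^ (n - 1))) * S := by
        ring
    _ = S + ENNReal.ofReal (n * w ^ (n - 1)) * S := by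
        rw [← ENNReal.ofReal_add (by positivity) (by positivity)]
        congr 3
        ring
    _ = _ := by
        rw [ENNReal.ofReal_mul (by positivity), ENNReal.ofReal_natCast, mul_assoc]

/-- volume of the truncated cross-polytope -/
theorem volume_trunc {s w : ℝ} (hw : 0 < w) (hws : 2 * w ≤ s) :
    volume (ball1 n s) ≤ volume (trunc n s (s - w)) +
      ENNReal.ofReal (n * w ^ n) * volume (ball1 n 1) := by
  set t := s - w with ht
  have ht0 : 0 ≤ t := by linarith
  have hsub : ball1 n s ⊆ trunc n s t ∪ ⋃ i : Fin n,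
      ((t • EuclideanSpace.single i (1 : ℝ)) +ᵥ half i w) ∪
        (-((t • EuclideanSpace.single i (1 : ℝ)) +ᵥ half i w)) := by
    intro x hx
    by_cases h : ∀ i, |x i| ≤ t
    · left; exact ⟨hx, h⟩
    · right
      push Not at h
      obtain ⟨i, hi⟩ := h
      refine mem_iUnion.2 ⟨i, ?_⟩
      have key : ∀ y : E n, N1 y ≤ s → t < y i →
          y ∈ ((t • EuclideanSpace.single i (1 : ℝ)) +ᵥ half i w : Set (E n)) := by
        intro y hy hyi
        refine ⟨y - t • EuclideanSpace.single i (1 : ℝ), ⟨?_, ?_⟩, by simp⟩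
        · simp; linarith
        · have h1 : N1 (y - t • EuclideanSpace.single i (1 : ℝ)) =
              N1 y - t := by
            have e1 := N1_sub y i
            have e2 := N1_sub (y - t • EuclideanSpace.single i (1 : ℝ)) i
            have e3 : (y - t • EuclideanSpace.single i (1 : ℝ)) i = y i - t := by simp
            have e4 : y - t • EuclideanSpace.single i (1 : ℝ) -
                (y i - t) • EuclideanSpace.single i (1 : ℝ) =
                y - y i • EuclideanSpace.single i (1 : ℝ) := by
              module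
            rw [e3, e4, e1, abs_of_pos (by linarith), abs_of_pos (by linarith)] at e2
            linarith
          rw [h1]
          linarith
      rcases abs_choice (x i) with h2 | h2
      · left
        exact key x hx (by rw [h2] at hi; exact hi)
      · right
        apply key (-x)
        · have h5 : N1 (-x) = N1 x := by simp [N1]
          rw [h5]; exact hx
        · have h6 : (-x) i = - x i := rfl
          rw [h6, ← h2]; exact hi
  have hcap : ∀ i : Fin n, volume (((t • EuclideanSpace.single i (1 : ℝ)) +ᵥ half i w) ∪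
        (-((t • EuclideanSpace.single i (1 : ℝ)) +ᵥ half i w)) : Set (E n)) ≤
        ENNReal.ofReal (w ^ n) * volume (ball1 n 1) := by
    intro i
    have hneg : ∀ F : Set (E n), volume (-F) = volume F := by
      intro F
      have := addHaar_smul (volume : Measure (E n)) (-1) F
      have h2 : (-1 : ℝ) • F = - F := by
        ext x
        constructor
        · rintro ⟨y, hy, rfl⟩
          simpa using hy
        · intro hx
          exact ⟨-x, hx, by simp⟩
      rw [h2] at this
      rw [this]
      simp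
    calc _ ≤ volume ((t • EuclideanSpace.single i (1 : ℝ)) +ᵥ half i w) +
          volume (-((t • EuclideanSpace.single i (1 : ℝ)) +ᵥ half i w)) := measure_union_le _ _
      _ = 2 * volume (half i w) := by
          rw [hneg, measure_vadd, two_mul]
      _ = ENNReal.ofReal (w ^ n) * (2 * volume (half i 1)) := by
          rw [volume_half_r i hw]
          ring
      _ ≤ _ := by
          gcongr
          exact volume_half_le i 1
  calc volume (ball1 n s) ≤ _ := measure_mono hsub
    _ ≤ _ := measure_union_le _ _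
    _ ≤ volume (trunc n s t) + ∑ i : Fin n, volume (((t • EuclideanSpace.single i (1 : ℝ)) +ᵥ half i w) ∪
        (-((t • EuclideanSpace.single i (1 : ℝ)) +ᵥ half i w)) : Set (E n)) := by
        gcongr
        exact measure_iUnion_fintype_le _ _
    _ ≤ volume (trunc n s t) + ∑ i : Fin n, ENNReal.ofReal (w ^ n) * volume (ball1 n 1) := by
        gcongr with i
        exact hcap i
    _ = _ := by
        rw [Finset.sum_const, Finset.card_univ, Fintype.card_fin, nsmul_eq_mul, ← mul_assoc,
          ENNReal.ofReal_mul (by positivity), ENNReal.ofReal_natCast]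

theorem convexBody_ball1 {r : ℝ} (hr : 0 < r) : IsConvexBody (ball1 n r) := by
  refine ⟨isCompact_ball1 r, ?_, ?_⟩
  · intro x hx y hy a b ha hb hab
    change N1 (a • x + b • y) ≤ r
    refine (N1_add_le _ _).trans ?_
    rw [N1_smul, N1_smul, abs_of_nonneg ha, abs_of_nonneg hb]
    have h1 := mul_le_mul_of_nonneg_left hx ha
    have h2 := mul_le_mul_of_nonneg_left hy hb
    nlinarith
  · refine ⟨0, mem_interior.2 ⟨{y | N1 y < r}, fun y (hy : N1 y < r) => hy.le,
      isOpen_lt continuous_N1 continuous_const, ?_⟩⟩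
    change N1 0 < r
    simpa [N1] using hr

theorem convexBody_trunc {s t : ℝ} (hs : 0 < s) (ht : 0 < t) : IsConvexBody (trunc n s t) := by
  refine ⟨isCompact_of_N1_le (isClosed_trunc s t) fun _ hx => hx.1, ?_, ?_⟩
  · intro x hx y hy a b ha hb hab
    refine ⟨(convexBody_ball1 (n := n) hs).2.1 hx.1 hy.1 ha hb hab, fun i => ?_⟩
    have e1 : (a • x + b • y) i = a * x i + b * y i := rfl
    rw [e1]
    refine (abs_add_le _ _).trans ?_
    rw [abs_mul, abs_mul, abs_of_nonneg ha, abs_of_nonneg hb]
    have h1 := mul_le_mul_of_nonneg_left (hx.2 i) ha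
    have h2 := mul_le_mul_of_nonneg_left (hy.2 i) hb
    nlinarith
  · refine ⟨0, mem_interior.2 ⟨{y | N1 y < s} ∩ {y | ∀ i, |y i| < t}, ?_, ?_, ?_, ?_⟩⟩
    · rintro y ⟨h1, h2⟩
      exact ⟨le_of_lt h1, fun i => (h2 i).le⟩
    · refine (isOpen_lt continuous_N1 continuous_const).inter ?_
      have : {y : E n | ∀ i, |y i| < t} = ⋂ i, {y : E n | |y i| < t} := by
        ext y; simp
      rw [this]
      exact isOpen_iInter_of_finite fun i => isOpen_lt (by fun_prop) continuous_const
    · change N1 0 < s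
      simpa [N1] using hs
    · intro i
      simpa using ht

/-- For every `n ≥ 3` there are centrally symmetric convex bodies `C₁`, `C₂` in `ℝⁿ` such that
`C₂` dominates `C₁` in affine surface area but `Vol C₁ > Vol C₂`. -/
theorem result (n : ℕ) (hn : 3 ≤ n) :
    ∃ C₁ C₂ : Set (EuclideanSpace ℝ (Fin n)),
      IsConvexBody C₁ ∧ IsConvexBody C₂ ∧ IsCentrallySymmetric C₁ ∧ IsCentrallySymmetric C₂ ∧
      Dominates C₂ C₁ ∧ volume C₂ < volume C₁ := by
  have hn1 : n - 1 ≠ 0 := by omega
  have hnR : (3 : ℝ) ≤ n := by exact_mod_cast hn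
  set w : ℝ := 1 / 4 with hw
  set c : ℝ := 1 + n / 3 * w ^ (n - 1) with hc
  have hwp : 0 < w ^ (n - 1) := by positivity
  have hc1 : 1 < c := by
    have : 0 < (n : ℝ) / 3 * w ^ (n - 1) := by positivity
    linarith
  set s : ℝ := c ^ (((n - 1 : ℕ) : ℝ)⁻¹) with hsdef
  have hs0 : 0 ≤ s := Real.rpow_nonneg (by linarith) _
  have hs : s ^ (n - 1) = c := Real.rpow_inv_natCast_pow (by linarith) hn1
  have hs1 : 1 ≤ s := by
    by_contra h
    push Not at h
    have := pow_lt_one₀ hs0 h hn1
    linarith
  have hws : 2 * w ≤ s := by rw [hw]; linarith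
  refine ⟨trunc n s (s - w), ball1 n 1, convexBody_trunc (by linarith) (by rw [hw]; linarith),
    convexBody_ball1 one_pos, ⟨0, fun y => ?_⟩, ⟨0, fun y => ?_⟩, fun A => ?_, ?_⟩
  · have h5 : N1 (-y) = N1 y := by simp [N1]
    simp [trunc, h5]
  · have h5 : N1 (-y) = N1 y := by simp [N1]
    simp [ball1, h5]
  · rw [surfaceArea_image, surfaceArea_image]
    exact domination hn (by rw [hw]; norm_num) hws hs _
  · have h1 := volume_trunc (n := n) (s := s) (w := w) (by rw [hw]; norm_num) hws
    rw [volume_ball1_r (by linarith)] at h1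
    set V := volume (ball1 n 1) with hV
    have hVtop : V ≠ ⊤ := (isCompact_ball1 (n := n) 1).measure_lt_top.ne
    have hVpos : V ≠ 0 := by
      have := (convexBody_ball1 (n := n) (r := 1) one_pos).2.2
      exact ((isOpen_interior.measure_pos volume this).trans_le
        (measure_mono interior_subset)).ne'
    have hlt : 1 + n * w ^ n < s ^ n := by
      have e1 : s ^ n = s * s ^ (n - 1) := by
        rw [← pow_succ']; congr 1; omega
      have e2 : w ^ n = w * w ^ (n - 1) := by
        rw [← pow_succ']; congr 1; omega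
      rw [e1, hs, e2, hc]
      have h3 : 1 + (n : ℝ) / 3 * w ^ (n - 1) ≤ s * (1 + n / 3 * w ^ (n - 1)) := by
        have : 0 < 1 + (n : ℝ) / 3 * w ^ (n - 1) := by linarith
        nlinarith
      refine lt_of_lt_of_le ?_ h3
      have h4 : (n : ℝ) * (w * w ^ (n - 1)) < n / 3 * w ^ (n - 1) := by
        rw [hw]
        have : 0 < (n : ℝ) * (1 / 4) ^ (n - 1) := by positivity
        nlinarith
      linarith
    have h2 : V + ENNReal.ofReal (n * w ^ n) * V < ENNReal.ofReal (s ^ n) * V := by
      have e1 : V + ENNReal.ofReal (n * w ^ n) * V = ENNReal.ofReal (1 + n * w ^ n) * V := by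
        rw [ENNReal.ofReal_add zero_le_one (by positivity), ENNReal.ofReal_one, add_mul, one_mul]
      rw [e1]
      refine ENNReal.mul_lt_mul_left hVpos hVtop ?_
      exact (ENNReal.ofReal_lt_ofReal_iff (by positivity)).2 hlt
    have h3 : V + ENNReal.ofReal (n * w ^ n) * V <
        volume (trunc n s (s - w)) + ENNReal.ofReal (n * w ^ n) * V := h2.trans_le h1
    exact (ENNReal.add_lt_add_iff_right (ENNReal.mul_ne_top ENNReal.ofReal_ne_top hVtop)).1 h3

end Pool.Agent.Results.MP_8228af_gt.AffineSurfaceArea
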